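import Mathlib
import Pool.Agent.Lib.MP_d75b76_nt.K5

/-!
# Maximum zero-sum-free sets modulo `m` which avoid the units exist only for finitely many `m`
-/

namespace Pool.Agent.Results.MP_d75b76_nt.LargeModuli

open Finset

/-- `S` is zero-sum-free: no nonempty subset of `S` has the sum `0`. -/
def ZeroSumFree {m : ℕ} (S : Finset (ZMod m)) : Prop :=
  ∀ T ⊆ S, T.Nonempty → ∑ t ∈ T, t ≠ 0

/-- `S` is a zero-sum-free set of the largest possible cardinality. -/
def IsMaximum {m : ℕ} (S : Finset (ZMod m)) : Prop :=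
  ZeroSumFree S ∧ ∀ S' : Finset (ZMod m), ZeroSumFree S' → S'.card ≤ S.card

/-- No element of `S` is coprime to `m`. -/
def AvoidsUnits {m : ℕ} (S : Finset (ZMod m)) : Prop :=
  ∀ s ∈ S, 1 < Nat.gcd s.val m

/-- The set of all integers `m ≥ 2` for which there is a maximum zero-sum-free set modulo `m` that
avoids the units. -/
def moduli : Set ℕ :=
  {m | 2 ≤ m ∧ ∃ S : Finset (ZMod m), IsMaximum S ∧ AvoidsUnits S}

/-- Only finitely many moduli `m` have a maximum zero-sum-free set which avoids the units; each such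
`m` is smaller than the `104`-th power of `max 1000 (8 ^ ω(m))`, where `ω(m)` is the number of prime
factors of `m`. -/
theorem result : moduli.Finite ∧ ∀ m ∈ moduli, m < max 1000 (8 ^ m.primeFactors.card) ^ 104 := by
  have key : ∀ m : ℕ, 2 ≤ m → ∀ S : Finset (ZMod m), AvoidsUnits S → ¬ ∃ s ∈ S, IsUnit s := by
    rintro m hm S hS ⟨s, hs, hu⟩
    have : NeZero m := ⟨by omega⟩
    have h1 := hS s hs
    rw [← ZMod.natCast_zmod_val s, ZMod.isUnit_iff_coprime] at hu
    have h2 : Nat.gcd s.val m = 1 := hu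
    omega
  constructor
  · obtain ⟨M, hM⟩ := Pool.Agent.Lib.MP_d75b76_nt.large
    refine (Set.finite_Iio M).subset ?_
    rintro m ⟨hm, S, ⟨hS, hmax⟩, hav⟩
    rw [Set.mem_Iio]
    by_contra hlt
    exact key m hm S hav (hM m (not_lt.1 hlt) S hS hmax)
  · rintro m ⟨hm, S, ⟨hS, hmax⟩, hav⟩
    have : NeZero m := ⟨by omega⟩
    by_contra hlt
    exact key m hm S hav (Pool.Agent.Lib.MP_d75b76_nt.explicit m (not_lt.1 hlt) S hS hmax)

end Pool.Agent.Results.MP_d75b76_nt.LargeModuli
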