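import Mathlib
import Pool.Agent.Lib.MP_d75b76_nt.Ex8

/-!
# The moduli up to `59` with a maximum zero-sum-free set which avoids the units
-/

namespace Pool.Agent.Results.MP_d75b76_nt.SmallModuli

open Finset

/-- `S` is zero-sum-free: no nonempty subset of `S` has the sum `0`. -/
def ZeroSumFree {m : ℕ} (S : Finset (ZMod m)) : Prop :=
  ∀ T ⊆ S, T.Nonempty → ∑ t ∈ T, t ≠ 0

/-- `S` is a zero-sum-free set of the largest possible cardinality. -/
def IsMaximum {m : ℕ} (S : Finset (ZMod m)) : Prop :=
  ZeroSumFree S ∧ ∀ S' : Finset (ZMod m), ZeroSumFree S' → S'.card ≤ S.card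

/-- No element of `S` is coprime to `m`. -/
def AvoidsUnits {m : ℕ} (S : Finset (ZMod m)) : Prop :=
  ∀ s ∈ S, 1 < Nat.gcd s.val m

private theorem av_iff {m : ℕ} (hm : 2 ≤ m) (S : Finset (ZMod m)) :
    AvoidsUnits S ↔ ∀ s ∈ S, ¬ IsUnit s := by
  have : NeZero m := ⟨by omega⟩
  refine forall₂_congr fun s _ => ?_
  nth_rewrite 2 [← ZMod.natCast_zmod_val s]
  rw [ZMod.isUnit_iff_coprime]
  have h1 : Nat.gcd s.val m ≠ 0 := Nat.gcd_ne_zero_right (by omega)
  have h2 : Nat.Coprime s.val m ↔ Nat.gcd s.val m = 1 := Iff.rfl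
  rw [h2]
  omega

private theorem yes {m : ℕ} (hm : 2 ≤ m) (h : ∃ S : Finset (ZMod m),
    Pool.Agent.Lib.MP_d75b76_nt.ZSF S ∧ (∀ S' : Finset (ZMod m),
      Pool.Agent.Lib.MP_d75b76_nt.ZSF S' → S'.card ≤ S.card) ∧ ∀ s ∈ S, ¬ IsUnit s) :
    ∃ S : Finset (ZMod m), IsMaximum S ∧ AvoidsUnits S := by
  obtain ⟨S, h1, h2, h3⟩ := h
  exact ⟨S, ⟨h1, h2⟩, (av_iff hm S).2 h3⟩

private theorem no {m : ℕ} (hm : 2 ≤ m) (h : ∀ S : Finset (ZMod m),
    Pool.Agent.Lib.MP_d75b76_nt.ZSF S → (∀ S' : Finset (ZMod m),
      Pool.Agent.Lib.MP_d75b76_nt.ZSF S' → S'.card ≤ S.card) → ∃ s ∈ S, IsUnit s) :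
    ¬ ∃ S : Finset (ZMod m), IsMaximum S ∧ AvoidsUnits S := by
  rintro ⟨S, ⟨h1, h2⟩, h3⟩
  obtain ⟨s, hs, hu⟩ := h S h1 h2
  exact (av_iff hm S).1 h3 s hs hu

open Pool.Agent.Lib.MP_d75b76_nt in
/-- For `2 ≤ m ≤ 59` there is a maximum zero-sum-free set modulo `m` which avoids the units if and
only if `m` is `12`, `18`, `24` or `30`. -/
theorem result (m : ℕ) (h2 : 2 ≤ m) (h59 : m ≤ 59) :
    (∃ S : Finset (ZMod m), IsMaximum S ∧ AvoidsUnits S) ↔ m = 12 ∨ m = 18 ∨ m = 24 ∨ m = 30 := by
  interval_cases m
  · exact iff_of_false (no (by norm_num) nn2) (by norm_num)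
  · exact iff_of_false (no (by norm_num) nn3) (by norm_num)
  · exact iff_of_false (no (by norm_num) nn4) (by norm_num)
  · exact iff_of_false (no (by norm_num) nn5) (by norm_num)
  · exact iff_of_false (no (by norm_num) nn6) (by norm_num)
  · exact iff_of_false (no (by norm_num) nn7) (by norm_num)
  · exact iff_of_false (no (by norm_num) nn8) (by norm_num)
  · exact iff_of_false (no (by norm_num) nn9) (by norm_num)
  · exact iff_of_false (no (by norm_num) nn10) (by norm_num)
  · exact iff_of_false (no (by norm_num) nn11) (by norm_num)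
  · exact iff_of_true (yes (by norm_num) ex12) (by norm_num)
  · exact iff_of_false (no (by norm_num) nn13) (by norm_num)
  · exact iff_of_false (no (by norm_num) nn14) (by norm_num)
  · exact iff_of_false (no (by norm_num) nn15) (by norm_num)
  · exact iff_of_false (no (by norm_num) nn16) (by norm_num)
  · exact iff_of_false (no (by norm_num) nn17) (by norm_num)
  · exact iff_of_true (yes (by norm_num) ex18) (by norm_num)
  · exact iff_of_false (no (by norm_num) nn19) (by norm_num)
  · exact iff_of_false (no (by norm_num) nn20) (by norm_num)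
  · exact iff_of_false (no (by norm_num) nn21) (by norm_num)
  · exact iff_of_false (no (by norm_num) nn22) (by norm_num)
  · exact iff_of_false (no (by norm_num) nn23) (by norm_num)
  · exact iff_of_true (yes (by norm_num) ex24) (by norm_num)
  · exact iff_of_false (no (by norm_num) nn25) (by norm_num)
  · exact iff_of_false (no (by norm_num) nn26) (by norm_num)
  · exact iff_of_false (no (by norm_num) nn27) (by norm_num)
  · exact iff_of_false (no (by norm_num) nn28) (by norm_num)
  · exact iff_of_false (no (by norm_num) nn29) (by norm_num)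
  · exact iff_of_true (yes (by norm_num) ex30) (by norm_num)
  · exact iff_of_false (no (by norm_num) nn31) (by norm_num)
  · exact iff_of_false (no (by norm_num) nn32) (by norm_num)
  · exact iff_of_false (no (by norm_num) nn33) (by norm_num)
  · exact iff_of_false (no (by norm_num) nn34) (by norm_num)
  · exact iff_of_false (no (by norm_num) nn35) (by norm_num)
  · exact iff_of_false (no (by norm_num) nn36) (by norm_num)
  · exact iff_of_false (no (by norm_num) nn37) (by norm_num)
  · exact iff_of_false (no (by norm_num) nn38) (by norm_num)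
  · exact iff_of_false (no (by norm_num) nn39) (by norm_num)
  · exact iff_of_false (no (by norm_num) nn40) (by norm_num)
  · exact iff_of_false (no (by norm_num) nn41) (by norm_num)
  · exact iff_of_false (no (by norm_num) nn42) (by norm_num)
  · exact iff_of_false (no (by norm_num) nn43) (by norm_num)
  · exact iff_of_false (no (by norm_num) nn44) (by norm_num)
  · exact iff_of_false (no (by norm_num) nn45) (by norm_num)
  · exact iff_of_false (no (by norm_num) nn46) (by norm_num)
  · exact iff_of_false (no (by norm_num) nn47) (by norm_num)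
  · exact iff_of_false (no (by norm_num) nn48) (by norm_num)
  · exact iff_of_false (no (by norm_num) nn49) (by norm_num)
  · exact iff_of_false (no (by norm_num) nn50) (by norm_num)
  · exact iff_of_false (no (by norm_num) nn51) (by norm_num)
  · exact iff_of_false (no (by norm_num) nn52) (by norm_num)
  · exact iff_of_false (no (by norm_num) nn53) (by norm_num)
  · exact iff_of_false (no (by norm_num) nn54) (by norm_num)
  · exact iff_of_false (no (by norm_num) nn55) (by norm_num)
  · exact iff_of_false (no (by norm_num) nn56) (by norm_num)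
  · exact iff_of_false (no (by norm_num) nn57) (by norm_num)
  · exact iff_of_false (no (by norm_num) nn58) (by norm_num)
  · exact iff_of_false (no (by norm_num) nn59) (by norm_num)

end Pool.Agent.Results.MP_d75b76_nt.SmallModuli
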