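import Mathlib

/-!
# Maximum zero-sum-free sets modulo `m`: prime powers and products of two odd primes
-/

namespace Pool.Agent.Results.MP_d75b76_nt.TwoPrimes

open Finset

/-- `S` is zero-sum-free: no nonempty subset of `S` has the sum `0`. -/
def ZeroSumFree {m : ℕ} (S : Finset (ZMod m)) : Prop :=
  ∀ T ⊆ S, T.Nonempty → ∑ t ∈ T, t ≠ 0

/-- `S` is a zero-sum-free set of the largest possible cardinality. -/
def IsMaximum {m : ℕ} (S : Finset (ZMod m)) : Prop :=
  ZeroSumFree S ∧ ∀ S' : Finset (ZMod m), ZeroSumFree S' → S'.card ≤ S.card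

/-- No element of `S` is coprime to `m`. -/
def AvoidsUnits {m : ℕ} (S : Finset (ZMod m)) : Prop :=
  ∀ s ∈ S, 1 < Nat.gcd s.val m

/-- For every divisor `d ≥ 2` of `m`, every maximum zero-sum-free set modulo `m` has at least
`min (d - 1) (m / d)` elements which are not multiples of `d`. -/
private theorem many {m d : ℕ} (hm : 2 ≤ m) (hd : 2 ≤ d) (hdm : d ∣ m) (S : Finset (ZMod m))
    (hS : IsMaximum S) :
    min (d - 1) (m / d) ≤ (S.filter (fun s => ¬ d ∣ s.val)).card := by
  have hm0 : NeZero m := ⟨by omega⟩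
  set r := min (d - 1) (m / d) with hr
  set f : ZMod m →+* ZMod d := ZMod.castHom hdm (ZMod d) with hf
  set A := S.filter (fun s => d ∣ s.val) with hA
  set g : ℕ → ZMod m := fun i => ((1 + d * i : ℕ) : ZMod m) with hg
  set U := (range r).image g with hU
  have hlt : ∀ i, i < r → 1 + d * i < m := by
    intro i hi
    have h1 : i + 1 ≤ m / d := by
      have : r ≤ m / d := min_le_right _ _
      omega
    have h2 : d * (i + 1) ≤ m := by
      calc d * (i + 1) ≤ d * (m / d) := Nat.mul_le_mul_left _ h1
        _ = m := Nat.mul_div_cancel' hdm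
    rw [Nat.mul_add] at h2
    omega
  have hinj : Set.InjOn g (range r : Finset ℕ) := by
    intro i hi j hj hij
    have hi' := hlt i (by simpa using hi)
    have hj' := hlt j (by simpa using hj)
    have h3 := congrArg ZMod.val hij
    simp only [hg] at h3
    rw [ZMod.val_natCast_of_lt hi', ZMod.val_natCast_of_lt hj'] at h3
    have h4 : d * i = d * j := by omega
    exact Nat.eq_of_mul_eq_mul_left (by omega) h4
  have hUc : U.card = r := by
    rw [hU, card_image_of_injOn hinj, card_range]
  have hfU : ∀ u ∈ U, f u = 1 := by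
    intro u hu
    obtain ⟨i, -, rfl⟩ := mem_image.1 hu
    simp [hg]
  have hfA : ∀ a ∈ A, f a = 0 := by
    intro a ha
    have h1 : d ∣ a.val := (mem_filter.1 ha).2
    have h2 : f a = ((a.val : ℕ) : ZMod d) := by
      conv_lhs => rw [← ZMod.natCast_zmod_val a]
      exact map_natCast f _
    rw [h2]
    exact (ZMod.natCast_eq_zero_iff _ _).2 h1
  have h1d : (1 : ZMod d) ≠ 0 := by
    have : Fact (1 < d) := ⟨by omega⟩
    exact one_ne_zero
  have hdis : Disjoint A U := by
    rw [disjoint_left]
    intro x hx hx'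
    exact h1d ((hfU x hx').symm.trans (hfA x hx))
  have hzf : ZeroSumFree (A ∪ U) := by
    intro T hT hne h0
    have hsplit : T = (T ∩ A) ∪ (T ∩ U) := by
      rw [← inter_union_distrib_left]
      exact (inter_eq_left.2 hT).symm
    have hd2 : Disjoint (T ∩ A) (T ∩ U) :=
      hdis.mono inter_subset_right inter_subset_right
    have hsum : ∑ t ∈ T ∩ A, t + ∑ t ∈ T ∩ U, t = 0 := by
      rw [← sum_union hd2, ← hsplit, h0]
    have hfs : (((T ∩ U).card : ℕ) : ZMod d) = 0 := by
      have h5 := congrArg f hsum
      rw [map_add, map_sum, map_sum, map_zero] at h5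
      rw [sum_eq_zero (fun x hx => hfA x (mem_inter.1 hx).2),
        sum_congr rfl (fun x hx => hfU x (mem_inter.1 hx).2)] at h5
      simpa using h5
    have hdvd := (ZMod.natCast_eq_zero_iff _ _).1 hfs
    have hle : (T ∩ U).card ≤ d - 1 :=
      (card_le_card inter_subset_right).trans (hUc.le.trans (min_le_left _ _))
    have hzero : (T ∩ U).card = 0 := by
      by_contra hpos
      have := Nat.le_of_dvd (Nat.pos_of_ne_zero hpos) hdvd
      omega
    have hTA : T ⊆ S := by
      rw [hsplit, card_eq_zero.1 hzero, union_empty]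
      exact inter_subset_right.trans (filter_subset _ _)
    exact hS.1 T hTA hne h0
  have hle := hS.2 _ hzf
  rw [card_union_of_disjoint hdis, hUc] at hle
  have hAB := card_filter_add_card_filter_not (s := S) (fun s => d ∣ s.val)
  rw [← hA] at hAB
  omega

/-- If `m` is a prime power or the product of two different odd primes, then no maximum zero-sum-free
set modulo `m` avoids the units. -/
theorem result (m : ℕ)
    (h : IsPrimePow m ∨ ∃ p q : ℕ, p.Prime ∧ q.Prime ∧ 2 < p ∧ p < q ∧ m = p * q) :
    ¬ ∃ S : Finset (ZMod m), IsMaximum S ∧ AvoidsUnits S := by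
  rcases h with hm | ⟨p, q, hp, hq, hp2, hpq, rfl⟩
  · rintro ⟨S, hS, hav⟩
    obtain ⟨p, k, hp, hk, rfl⟩ := (isPrimePow_nat_iff m).1 hm
    have hm2 : 2 ≤ p ^ k :=
      hp.two_le.trans (Nat.le_self_pow (by omega) p)
    have h := many hm2 hp.two_le (dvd_pow_self p (by omega)) S hS
    have hempty : S.filter (fun s => ¬ p ∣ s.val) = ∅ := by
      rw [filter_eq_empty_iff]
      intro s hs
      rw [not_not]
      have h1 := hav s hs
      by_contra hps
      have h2 : Nat.Coprime s.val (p ^ k) :=
        Nat.Coprime.pow_right k ((Nat.Prime.coprime_iff_not_dvd hp).2 hps).symm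
      rw [h2] at h1
      omega
    rw [hempty, card_empty] at h
    have h3 : 1 ≤ p - 1 := by
      have := hp.two_le
      omega
    have h4 : 1 ≤ p ^ k / p :=
      Nat.div_pos (Nat.le_self_pow (by omega) p) hp.pos
    have h5 : 1 ≤ min (p - 1) (p ^ k / p) := le_min h3 h4
    omega
  · rintro ⟨S, hS, hav⟩
    have hq2 := hq.two_le
    have hm2 : 2 ≤ p * q := by nlinarith
    have hm0 : NeZero (p * q) := ⟨by omega⟩
    have h := many hm2 hp.two_le (Dvd.intro q rfl) S hS
    rw [Nat.mul_div_cancel_left q hp.pos, min_eq_left (by omega)] at h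
    set B := S.filter (fun s => ¬ p ∣ s.val) with hB
    set I := (Icc 1 (p - 1)).image (fun j : ℕ => ((q * j : ℕ) : ZMod (p * q))) with hI
    have hBI : B ⊆ I := by
      intro s hs
      obtain ⟨hsS, hps⟩ := mem_filter.1 hs
      have h1 := hav s hsS
      have hqs : q ∣ s.val := by
        by_contra hqs
        have h2 : Nat.Coprime s.val (p * q) :=
          Nat.Coprime.mul_right ((Nat.Prime.coprime_iff_not_dvd hp).2 hps).symm
            ((Nat.Prime.coprime_iff_not_dvd hq).2 hqs).symm
        rw [h2] at h1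
        omega
      obtain ⟨j, hj⟩ := hqs
      rw [hI, mem_image]
      refine ⟨j, ?_, ?_⟩
      · rw [mem_Icc]
        constructor
        · rcases Nat.eq_zero_or_pos j with h0 | h0
          · rw [h0, Nat.mul_zero] at hj
            rw [hj] at hps
            exact absurd (dvd_zero p) hps
          · exact h0
        · have h3 := ZMod.val_lt s
          rw [hj, Nat.mul_comm q j] at h3
          have h4 := Nat.lt_of_mul_lt_mul_right h3
          omega
      · rw [← hj, ZMod.natCast_zmod_val]
    have hIc : I.card ≤ p - 1 := by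
      have := card_image_le (s := Icc 1 (p - 1)) (f := fun j : ℕ => ((q * j : ℕ) : ZMod (p * q)))
      rw [Nat.card_Icc] at this
      rw [hI]
      omega
    have hBI' : B = I := eq_of_subset_of_card_le hBI (hIc.trans h)
    have hx : ((q * 1 : ℕ) : ZMod (p * q)) ∈ S := by
      have : ((q * 1 : ℕ) : ZMod (p * q)) ∈ B := by
        rw [hBI', hI]
        exact mem_image_of_mem _ (mem_Icc.2 ⟨le_refl _, by omega⟩)
      exact (mem_filter.1 this).1
    have hy : ((q * (p - 1) : ℕ) : ZMod (p * q)) ∈ S := by
      have : ((q * (p - 1) : ℕ) : ZMod (p * q)) ∈ B := by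
        rw [hBI', hI]
        exact mem_image_of_mem (fun j : ℕ => ((q * j : ℕ) : ZMod (p * q)))
          (mem_Icc.2 ⟨by omega, le_refl _⟩)
      exact (mem_filter.1 this).1
    have hne : ((q * 1 : ℕ) : ZMod (p * q)) ≠ ((q * (p - 1) : ℕ) : ZMod (p * q)) := by
      intro he
      have h5 := congrArg ZMod.val he
      rw [ZMod.val_natCast_of_lt, ZMod.val_natCast_of_lt] at h5
      · have := Nat.eq_of_mul_eq_mul_left hq.pos h5
        omega
      · rw [Nat.mul_comm p q]
        exact Nat.mul_lt_mul_of_pos_left (by omega) hq.pos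
      · rw [Nat.mul_comm p q]
        exact Nat.mul_lt_mul_of_pos_left (by omega) hq.pos
    refine hS.1 {((q * 1 : ℕ) : ZMod (p * q)), ((q * (p - 1) : ℕ) : ZMod (p * q))} ?_ ?_ ?_
    · intro z hz
      rw [mem_insert, mem_singleton] at hz
      rcases hz with rfl | rfl
      · exact hx
      · exact hy
    · exact insert_nonempty _ _
    · rw [sum_pair hne, ← Nat.cast_add, ← Nat.mul_add, Nat.add_sub_cancel' (by omega : 1 ≤ p),
        Nat.mul_comm q p]
      exact ZMod.natCast_self _

end Pool.Agent.Results.MP_d75b76_nt.TwoPrimes
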